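import Mathlib

/-!
# Higher-order Schwarzian derivatives of orders `(1, q)` (MP_9404a8_an, Q1)

For every `q ≥ 2` the inequality `‖S_f^{[1,q]}‖_{B_{1+q}} ≤ (1 + q - 1)! = q!` fails in the class `S`:
the supremum of the left-hand side is at least `q! 2^{q+1} q^q / (q+1)^{q+1} > q!`.

The functions are `f(z) = z (1 - c z) / (1 - α z)²`, `α = c + i s`, `c² + s² = 1`: maps onto the
complement of a half-line. For them `F(z,w) = log (1 + z ψ(w)) - log (1 - c z)` with
`ψ(w) = (w - c) / (1 - c w)`.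
-/

set_option autoImplicit false

open Complex Metric Set

namespace Pool.Agent.Results.MP_9404a8_an.OrderOneQ

/-- The class `S`: holomorphic injective functions on the unit disc, `f(0) = 0`, `f'(0) = 1`. -/
def ClassS (f : ℂ → ℂ) : Prop :=
  DifferentiableOn ℂ f (ball 0 1) ∧ InjOn f (ball 0 1) ∧ f 0 = 0 ∧ deriv f 0 = 1

/-- `z / f(z)`, read as `1` at `z = 0`. -/
noncomputable def quot (f : ℂ → ℂ) (z : ℂ) : ℂ := if z = 0 then 1 else z / f z

/-- the bracket `(f(z) - f(w))/(z - w) · z/f(z) · w/f(w)`, with `f'(z)` as the first factor for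
`w = z`. -/
noncomputable def bracket (f : ℂ → ℂ) (z w : ℂ) : ℂ :=
  (if z = w then deriv f z else (f z - f w) / (z - w)) * quot f z * quot f w

/-- `F` is the branch of the logarithm of the bracket on the bidisc with `F(0,0) = 0`. -/
def IsBranch (f : ℂ → ℂ) (F : ℂ → ℂ → ℂ) : Prop :=
  ContinuousOn (fun p : ℂ × ℂ => F p.1 p.2) (ball 0 1 ×ˢ ball 0 1) ∧
    (∀ z ∈ ball (0 : ℂ) 1, ∀ w ∈ ball (0 : ℂ) 1, Complex.exp (F z w) = bracket f z w) ∧
    F 0 0 = 0

/-- `(∂^{p+q} F / ∂z^p ∂w^q)(z, z)`. -/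
noncomputable def schwarzian (F : ℂ → ℂ → ℂ) (p q : ℕ) (z : ℂ) : ℂ :=
  iteratedDeriv p (fun u => iteratedDeriv q (fun v => F u v) z) z

section

variable (c s : ℝ)

noncomputable def al : ℂ := c + s * I

noncomputable def f (z : ℂ) : ℂ := z * (1 - c * z) / (1 - al c s * z) ^ 2

noncomputable def psi (w : ℂ) : ℂ := (w - c) / (1 - c * w)

noncomputable def F (z w : ℂ) : ℂ := Complex.log (1 + z * psi c w) - Complex.log (1 - c * z)

noncomputable def D (z w : ℂ) : ℂ := 1 - c * (z + w) + z * w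

end

variable {c s : ℝ}

lemma norm_al (h : c ^ 2 + s ^ 2 = 1) : ‖al c s‖ = 1 := by
  have h1 : ‖al c s‖ ^ 2 = 1 := by
    rw [← Complex.normSq_eq_norm_sq, Complex.normSq_apply]
    simp [al]
    nlinarith
  have h2 := norm_nonneg (al c s)
  nlinarith

lemma re_pos_of {x : ℂ} (hx : ‖x‖ < 1) : 1 - x ∈ Complex.slitPlane := by
  left
  have h2 : x.re ≤ ‖x‖ := (le_abs_self _).trans (Complex.abs_re_le_norm x)
  simp only [Complex.sub_re, Complex.one_re]
  linarith

lemma re_pos_of' {x : ℂ} (hx : ‖x‖ < 1) : 1 + x ∈ Complex.slitPlane := by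
  have := re_pos_of (x := -x) (by simpa using hx)
  simpa using this

lemma norm_cz (hc : |c| ≤ 1) {z : ℂ} (hz : ‖z‖ < 1) : ‖(c : ℂ) * z‖ < 1 := by
  rw [norm_mul, Complex.norm_real, Real.norm_eq_abs]
  have := norm_nonneg z
  nlinarith [abs_nonneg c]

lemma ne_c (hc : |c| ≤ 1) {z : ℂ} (hz : ‖z‖ < 1) : 1 - (c : ℂ) * z ≠ 0 :=
  Complex.slitPlane_ne_zero (re_pos_of (norm_cz hc hz))

lemma ne_al (h : c ^ 2 + s ^ 2 = 1) {z : ℂ} (hz : ‖z‖ < 1) : 1 - al c s * z ≠ 0 := by
  apply Complex.slitPlane_ne_zero (re_pos_of _)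
  rw [norm_mul, norm_al h, one_mul]
  exact hz

lemma c_lt (h : c ^ 2 + s ^ 2 = 1) (hs : 0 < s) : |c| < 1 := by
  rw [abs_lt]
  constructor <;> nlinarith

lemma psi_lt (h : c ^ 2 + s ^ 2 = 1) (hs : 0 < s) {w : ℂ} (hw : ‖w‖ < 1) : ‖psi c w‖ < 1 := by
  have hc := c_lt h hs
  have h0 := ne_c hc.le hw
  unfold psi
  rw [norm_div, div_lt_one (norm_pos_iff.mpr h0)]
  have h1 : ‖w - c‖ ^ 2 < ‖1 - (c : ℂ) * w‖ ^ 2 := by
    have e : ‖1 - (c : ℂ) * w‖ ^ 2 - ‖w - c‖ ^ 2 = (1 - c ^ 2) * (1 - ‖w‖ ^ 2) := by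
      rw [← Complex.normSq_eq_norm_sq, ← Complex.normSq_eq_norm_sq, ← Complex.normSq_eq_norm_sq,
        Complex.normSq_apply, Complex.normSq_apply, Complex.normSq_apply]
      simp only [Complex.sub_re, Complex.sub_im, Complex.mul_re, Complex.mul_im, Complex.one_re,
        Complex.one_im, Complex.ofReal_re, Complex.ofReal_im]
      ring
    have h2 : 0 < 1 - c ^ 2 := by nlinarith
    have h3 : 0 < 1 - ‖w‖ ^ 2 := by nlinarith [norm_nonneg w]
    nlinarith [mul_pos h2 h3]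
  exact lt_of_pow_lt_pow_left₀ 2 (norm_nonneg _) h1

lemma norm_zpsi (h : c ^ 2 + s ^ 2 = 1) (hs : 0 < s) {z w : ℂ} (hz : ‖z‖ < 1) (hw : ‖w‖ < 1) :
    ‖z * psi c w‖ < 1 := by
  rw [norm_mul]
  have := psi_lt h hs hw
  nlinarith [norm_nonneg z, norm_nonneg (psi c w)]

lemma D_eq (h : c ^ 2 + s ^ 2 = 1) (hs : 0 < s) {z w : ℂ} (hw : ‖w‖ < 1) :
    D c z w = (1 - c * w) * (1 + z * psi c w) := by
  have h0 := ne_c (c_lt h hs).le hw
  unfold D psi
  field_simp
  ring

lemma D_ne (h : c ^ 2 + s ^ 2 = 1) (hs : 0 < s) {z w : ℂ} (hz : ‖z‖ < 1) (hw : ‖w‖ < 1) :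
    D c z w ≠ 0 := by
  rw [D_eq h hs hw]
  exact mul_ne_zero (ne_c (c_lt h hs).le hw)
    (Complex.slitPlane_ne_zero (re_pos_of' (norm_zpsi h hs hz hw)))

lemma al_sq (h : c ^ 2 + s ^ 2 = 1) : al c s ^ 2 - 2 * c * al c s + 1 = 0 := by
  have h' : (c : ℂ) ^ 2 + (s : ℂ) ^ 2 = 1 := by exact_mod_cast h
  unfold al
  linear_combination -h' + (s : ℂ) ^ 2 * Complex.I_sq

lemma f_sub (h : c ^ 2 + s ^ 2 = 1) {z w : ℂ} (hz : ‖z‖ < 1) (hw : ‖w‖ < 1) :
    f c s z - f c s w = (z - w) * (D c z w / ((1 - al c s * z) ^ 2 * (1 - al c s * w) ^ 2)) := by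
  have h1 := ne_al h hz
  have h2 := ne_al h hw
  have h3 := al_sq h
  unfold f D
  rw [div_sub_div _ _ (pow_ne_zero 2 h1) (pow_ne_zero 2 h2), mul_div_assoc']
  congr 1
  linear_combination (w * z * (w - z)) * h3

lemma f_deriv (h : c ^ 2 + s ^ 2 = 1) {z : ℂ} (hz : ‖z‖ < 1) :
    HasDerivAt (f c s) (D c z z / ((1 - al c s * z) ^ 2 * (1 - al c s * z) ^ 2)) z := by
  have h1 := ne_al h hz
  have h3 := al_sq h
  have a1 : HasDerivAt (fun z : ℂ => z * (1 - c * z)) (1 * (1 - c * z) + z * (-(c * 1))) z :=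
    (hasDerivAt_id z).mul (((hasDerivAt_id z).const_mul (c : ℂ)).const_sub 1)
  have a2 : HasDerivAt (fun z : ℂ => (1 - al c s * z) ^ 2)
      ((2 : ℕ) * (1 - al c s * z) ^ (2 - 1) * (-(al c s * 1))) z :=
    (((hasDerivAt_id z).const_mul (al c s)).const_sub 1).pow 2
  have a3 := a1.div a2 (pow_ne_zero 2 h1)
  convert! a3 using 1
  unfold D
  rw [div_eq_div_iff (mul_ne_zero (pow_ne_zero 2 h1) (pow_ne_zero 2 h1))
    (pow_ne_zero 2 (pow_ne_zero 2 h1))]
  push_cast
  linear_combination (z ^ 2 * (1 - al c s * z) ^ 4) * h3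

lemma quot_f (h : c ^ 2 + s ^ 2 = 1) (hs : 0 < s) {z : ℂ} (hz : ‖z‖ < 1) :
    quot (f c s) z = (1 - al c s * z) ^ 2 / (1 - c * z) := by
  have h1 := ne_al h hz
  have h2 := ne_c (c_lt h hs).le hz
  unfold quot
  split_ifs with h0
  · simp [h0]
  · unfold f
    field_simp

lemma bracket_f (h : c ^ 2 + s ^ 2 = 1) (hs : 0 < s) {z w : ℂ} (hz : ‖z‖ < 1) (hw : ‖w‖ < 1) :
    bracket (f c s) z w = D c z w / ((1 - c * z) * (1 - c * w)) := by
  have h1 := ne_al h hz
  have h2 := ne_al h hw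
  have h3 := ne_c (c_lt h hs).le hz
  have h4 := ne_c (c_lt h hs).le hw
  have key : (if z = w then deriv (f c s) z else (f c s z - f c s w) / (z - w)) =
      D c z w / ((1 - al c s * z) ^ 2 * (1 - al c s * w) ^ 2) := by
    split_ifs with h0
    · subst h0
      exact (f_deriv h hz).deriv
    · rw [f_sub h hz hw, mul_div_cancel_left₀ _ (sub_ne_zero.mpr h0)]
  unfold bracket
  rw [key, quot_f h hs hz, quot_f h hs hw]
  field_simp

lemma classS_f (h : c ^ 2 + s ^ 2 = 1) (hs : 0 < s) : ClassS (f c s) := by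
  refine ⟨fun z hz => (f_deriv h (by simpa using hz)).differentiableAt.differentiableWithinAt,
    ?_, by simp [f], ?_⟩
  · intro z hz w hw hzw
    have hz' : ‖z‖ < 1 := by simpa using hz
    have hw' : ‖w‖ < 1 := by simpa using hw
    have h1 := f_sub h hz' hw'
    rw [hzw, sub_self] at h1
    rcases mul_eq_zero.mp h1.symm with h2 | h2
    · exact sub_eq_zero.mp h2
    · exact absurd h2 (div_ne_zero (D_ne h hs hz' hw')
        (mul_ne_zero (pow_ne_zero 2 (ne_al h hz')) (pow_ne_zero 2 (ne_al h hw'))))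
  · rw [(f_deriv h (by simp)).deriv]
    simp [D]

lemma isBranch_F (h : c ^ 2 + s ^ 2 = 1) (hs : 0 < s) : IsBranch (f c s) (F c) := by
  refine ⟨?_, ?_, by simp [F]⟩
  · intro p hp
    have hz : ‖p.1‖ < 1 := by simpa using hp.1
    have hw : ‖p.2‖ < 1 := by simpa using hp.2
    have h4 := ne_c (c_lt h hs).le hw
    apply ContinuousAt.continuousWithinAt
    unfold F
    refine ContinuousAt.sub (ContinuousAt.clog ?_ (re_pos_of' (norm_zpsi h hs hz hw)))
      (ContinuousAt.clog ?_ (re_pos_of (norm_cz (c_lt h hs).le hz)))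
    · unfold psi
      refine continuousAt_const.add (continuousAt_fst.mul (ContinuousAt.div ?_ ?_ h4))
      · exact continuousAt_snd.sub continuousAt_const
      · exact continuousAt_const.sub (continuousAt_const.mul continuousAt_snd)
    · exact continuousAt_const.sub (continuousAt_const.mul continuousAt_fst)
  · intro z hz w hw
    have hz' : ‖z‖ < 1 := by simpa using hz
    have hw' : ‖w‖ < 1 := by simpa using hw
    have h3 := ne_c (c_lt h hs).le hz'
    have h4 := ne_c (c_lt h hs).le hw'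
    rw [bracket_f h hs hz' hw', D_eq h hs hw']
    unfold F
    rw [Complex.exp_sub, Complex.exp_log, Complex.exp_log h3]
    · field_simp
    · exact Complex.slitPlane_ne_zero (re_pos_of' (norm_zpsi h hs hz' hw'))

/-- first derivative in the second variable. -/
lemma F_deriv (h : c ^ 2 + s ^ 2 = 1) (hs : 0 < s) {z w : ℂ} (hz : ‖z‖ < 1) (hw : ‖w‖ < 1) :
    HasDerivAt (fun v => F c z v) ((z - c) / D c z w + c / (1 - c * w)) w := by
  have h4 := ne_c (c_lt h hs).le hw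
  have h5 := norm_zpsi h hs hz hw
  have h6 : 1 + z * psi c w ≠ 0 := Complex.slitPlane_ne_zero (re_pos_of' h5)
  have a1 : HasDerivAt (fun w : ℂ => w - c) 1 w := (hasDerivAt_id w).sub_const _
  have a2 : HasDerivAt (fun w : ℂ => 1 - c * w) (-(c * 1)) w :=
    ((hasDerivAt_id w).const_mul (c : ℂ)).const_sub 1
  have a3 : HasDerivAt (psi c) ((1 * (1 - c * w) - (w - c) * (-(c * 1))) / (1 - c * w) ^ 2) w :=
    a1.div a2 h4
  have a4 := (((a3.const_mul z).const_add 1).clog (re_pos_of' h5)).sub_const (Complex.log (1 - c * z))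
  convert! a4 using 1
  have e : psi c w * (1 - c * w) = w - c := by unfold psi; exact div_mul_cancel₀ _ h4
  rw [D_eq h hs hw]
  generalize psi c w = p at *
  have e1 : (z - c) / ((1 - c * w) * (1 + z * p)) + c / (1 - c * w) =
      ((z - c) * (1 - c * w) + c * (1 + z * p) * (1 - c * w)) / ((1 - c * w) ^ 2 * (1 + z * p)) := by
    field_simp
  have e2 : z * ((1 * (1 - c * w) - (w - c) * -(c * 1)) / (1 - c * w) ^ 2) / (1 + z * p) =
      (z * ((1 - c * w) + (w - c) * c)) / ((1 - c * w) ^ 2 * (1 + z * p)) := by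
    field_simp
    ring
  rw [e1, e2]
  congr 1
  linear_combination (c * z) * e

lemma D_deriv2 (z w : ℂ) : HasDerivAt (fun v => D c z v) (z - c) w := by
  have a : HasDerivAt (fun v : ℂ => 1 - c * (z + v) + z * v) (-(c * 1) + z * 1) w :=
    ((((hasDerivAt_id w).const_add z).const_mul (c : ℂ)).const_sub 1).add
      ((hasDerivAt_id w).const_mul z)
  convert! a using 1
  ring

lemma D_deriv1 (z w : ℂ) : HasDerivAt (fun u => D c u w) (w - c) z := by
  have a : HasDerivAt (fun u : ℂ => 1 - c * (u + w) + u * w) (-(c * 1) + 1 * w) z :=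
    ((((hasDerivAt_id z).add_const w).const_mul (c : ℂ)).const_sub 1).add
      ((hasDerivAt_id z).mul_const w)
  convert! a using 1
  ring

lemma iter_F (h : c ^ 2 + s ^ 2 = 1) (hs : 0 < s) {z : ℂ} (hz : ‖z‖ < 1) (n : ℕ) :
    ∀ w : ℂ, ‖w‖ < 1 → iteratedDeriv (n + 1) (fun v => F c z v) w =
      (-1) ^ n * (n.factorial : ℂ) * ((z - c) / D c z w) ^ (n + 1) +
        (n.factorial : ℂ) * (c / (1 - c * w)) ^ (n + 1) := by
  induction n with
  | zero =>
    intro w hw
    rw [zero_add, iteratedDeriv_one, (F_deriv h hs hz hw).deriv]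
    simp
  | succ n ih =>
    intro w hw
    rw [iteratedDeriv_succ]
    have he : iteratedDeriv (n + 1) (fun v => F c z v) =ᶠ[nhds w] fun w =>
        (-1) ^ n * (n.factorial : ℂ) * ((z - c) / D c z w) ^ (n + 1) +
        (n.factorial : ℂ) * (c / (1 - c * w)) ^ (n + 1) := by
      filter_upwards [(isOpen_ball (x := (0 : ℂ)) (ε := 1)).mem_nhds (by simpa using hw)] with y hy
      exact ih y (by simpa using hy)
    rw [he.deriv_eq]
    have h4 := ne_c (c_lt h hs).le hw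
    have hD := D_ne h hs hz hw
    have b1 : HasDerivAt (fun w => (z - c) / D c z w) (-((z - c) / D c z w) ^ 2) w := by
      have := ((D_deriv2 (c := c) z w).inv hD).const_mul (z - c)
      convert! this using 1
      field_simp
    have b2 : HasDerivAt (fun w : ℂ => (c : ℂ) / (1 - c * w)) ((c / (1 - c * w)) ^ 2) w := by
      have a2 : HasDerivAt (fun w : ℂ => 1 - c * w) (-(c * 1)) w :=
        ((hasDerivAt_id w).const_mul (c : ℂ)).const_sub 1
      have := (a2.inv h4).const_mul (c : ℂ)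
      convert! this using 1
      field_simp
    have b3 := ((b1.pow (n + 1)).const_mul ((-1) ^ n * (n.factorial : ℂ))).add
      ((b2.pow (n + 1)).const_mul (n.factorial : ℂ))
    have b4 := b3.deriv
    rw [show (fun w => (-1) ^ n * (n.factorial : ℂ) * ((z - c) / D c z w) ^ (n + 1) +
        (n.factorial : ℂ) * (c / (1 - c * w)) ^ (n + 1)) =
      ((fun y => (-1) ^ n * (n.factorial : ℂ) * ((fun w => (z - ↑c) / D c z w) ^ (n + 1)) y) +
        fun y => (n.factorial : ℂ) * ((fun w : ℂ => (c : ℂ) / (1 - c * w)) ^ (n + 1)) y) from by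
      funext w; simp]
    rw [b4, Nat.factorial_succ]
    simp only [Nat.add_sub_cancel]
    push_cast
    ring

lemma schwarzian_F (h : c ^ 2 + s ^ 2 = 1) (hs : 0 < s) {z : ℂ} (hz : ‖z‖ < 1) (n : ℕ) :
    schwarzian (F c) 1 (n + 1) z =
      (-1) ^ n * ((n + 1).factorial : ℂ) * ((z - c) / D c z z) ^ n * (s ^ 2 / D c z z ^ 2) := by
  unfold schwarzian
  rw [iteratedDeriv_one]
  have he : (fun u => iteratedDeriv (n + 1) (fun v => F c u v) z) =ᶠ[nhds z] fun u =>
        (-1) ^ n * (n.factorial : ℂ) * ((u - c) / D c u z) ^ (n + 1) +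
        (n.factorial : ℂ) * (c / (1 - c * z)) ^ (n + 1) := by
    filter_upwards [(isOpen_ball (x := (0 : ℂ)) (ε := 1)).mem_nhds (by simpa using hz)] with y hy
    exact iter_F h hs (by simpa using hy) n z hz
  rw [he.deriv_eq]
  have hD := D_ne h hs hz hz
  have h' : (c : ℂ) ^ 2 + (s : ℂ) ^ 2 = 1 := by exact_mod_cast h
  have b1 : HasDerivAt (fun u => (u - c) / D c u z) (s ^ 2 / D c z z ^ 2) z := by
    have a1 : HasDerivAt (fun u : ℂ => u - c) 1 z := (hasDerivAt_id z).sub_const _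
    have := a1.div (D_deriv1 (c := c) z z) hD
    convert! this using 1
    congr 1
    unfold D
    linear_combination h'
  have b3 := ((b1.pow (n + 1)).const_mul ((-1) ^ n * (n.factorial : ℂ))).add_const
    ((n.factorial : ℂ) * (c / (1 - c * z)) ^ (n + 1))
  have b4 := b3.deriv
  rw [show (fun u => (-1) ^ n * (n.factorial : ℂ) * ((u - c) / D c u z) ^ (n + 1) +
        (n.factorial : ℂ) * (c / (1 - c * z)) ^ (n + 1)) =
      (fun x => (fun y => (-1) ^ n * (n.factorial : ℂ) * ((fun u => (u - ↑c) / D c u z) ^ (n + 1)) y) x +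
        (n.factorial : ℂ) * (c / (1 - c * z)) ^ (n + 1)) from by
      funext w; simp]
  rw [b4, Nat.factorial_succ]
  simp only [Nat.add_sub_cancel]
  push_cast
  ring

/-- the inequality `(q+1)^(q+1) < 2^(q+1) q^q` for `q ≥ 2`. -/
lemma ineq (q : ℕ) (hq : 2 ≤ q) : ((q : ℝ) + 1) ^ (q + 1) < 2 ^ (q + 1) * (q : ℝ) ^ q := by
  induction q, hq using Nat.le_induction with
  | base => norm_num
  | succ q hq ih =>
    have hq' : (2 : ℝ) ≤ q := by exact_mod_cast hq
    have h1 : (((q : ℝ) + 2) * q) ^ q ≤ (((q : ℝ) + 1) ^ 2) ^ q :=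
      pow_le_pow_left₀ (by positivity) (by nlinarith) q
    have h2 : ((q : ℝ) + 2) ^ 2 ≤ 2 * ((q : ℝ) + 1) ^ 2 := by nlinarith
    have h3 : ((q : ℝ) + 2) ^ (q + 2) * (q : ℝ) ^ q ≤ 2 * (((q : ℝ) + 1) ^ (q + 1) *
        ((q : ℝ) + 1) ^ (q + 1)) := by
      calc ((q : ℝ) + 2) ^ (q + 2) * (q : ℝ) ^ q = (((q : ℝ) + 2) * q) ^ q * ((q : ℝ) + 2) ^ 2 := by
            rw [mul_pow]; ring
        _ ≤ (((q : ℝ) + 1) ^ 2) ^ q * (2 * ((q : ℝ) + 1) ^ 2) :=
            mul_le_mul h1 h2 (by positivity) (by positivity)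
        _ = 2 * (((q : ℝ) + 1) ^ (q + 1) * ((q : ℝ) + 1) ^ (q + 1)) := by
            rw [← pow_mul]; ring
    have h4 : 2 * (((q : ℝ) + 1) ^ (q + 1) * ((q : ℝ) + 1) ^ (q + 1)) <
        2 * (((q : ℝ) + 1) ^ (q + 1) * (2 ^ (q + 1) * (q : ℝ) ^ q)) := by
      have : 0 < ((q : ℝ) + 1) ^ (q + 1) := by positivity
      nlinarith [mul_lt_mul_of_pos_left ih this]
    have h5 : 0 < (q : ℝ) ^ q := by positivity
    have h6 : ((q : ℝ) + 2) ^ (q + 2) * (q : ℝ) ^ q <
        (2 ^ (q + 2) * ((q : ℝ) + 1) ^ (q + 1)) * (q : ℝ) ^ q := by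
      calc _ < _ := lt_of_le_of_lt h3 h4
        _ = _ := by ring
    have h7 := lt_of_mul_lt_mul_right h6 h5.le
    push_cast
    have e : (q : ℝ) + 1 + 1 = q + 2 := by ring
    rw [e]
    exact h7

noncomputable def sU (u : ℝ) : ℝ := 2 * u / (1 + u ^ 2)

noncomputable def cU (u : ℝ) : ℝ := (1 - u ^ 2) / (1 + u ^ 2)

lemma cs_U (u : ℝ) : cU u ^ 2 + sU u ^ 2 = 1 := by
  have : 1 + u ^ 2 ≠ 0 := by positivity
  unfold cU sU
  field_simp
  ring

lemma one_sub_cU (u : ℝ) : 1 - cU u = u * sU u := by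
  have : 1 + u ^ 2 ≠ 0 := by positivity
  unfold cU sU
  field_simp
  ring

/-- the value on the real segment, as a function of `u`; `t` stands for `√q`. -/
noncomputable def g (t : ℝ) (n : ℕ) (u : ℝ) : ℝ :=
  (t - u) ^ n * t ^ (n + 2) * (2 - t * sU u) ^ (n + 2) / ((t - u) ^ 2 + 1) ^ (n + 2)

lemma value {t u : ℝ} (n : ℕ) (ht : 0 < t) (hu : 0 < u) (hut : u < t) (h1 : t * sU u < 1) :
    ‖schwarzian (F (cU u)) 1 (n + 1) ((1 - t * sU u : ℝ) : ℂ)‖ *
      (1 - ‖((1 - t * sU u : ℝ) : ℂ)‖ ^ 2) ^ (1 + (n + 1)) = (n + 1).factorial * g t n u := by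
  have hs : 0 < sU u := by unfold sU; positivity
  have hts : 0 < t * sU u := mul_pos ht hs
  have hr : ‖((1 - t * sU u : ℝ) : ℂ)‖ < 1 := by
    rw [Complex.norm_real, Real.norm_eq_abs, abs_lt]
    constructor <;> linarith
  rw [schwarzian_F (cs_U u) hs hr]
  have hc := cs_U u
  have hc1 := one_sub_cU u
  have hD : D (cU u) ((1 - t * sU u : ℝ) : ℂ) ((1 - t * sU u : ℝ) : ℂ) =
      ((sU u ^ 2 * ((t - u) ^ 2 + 1) : ℝ) : ℂ) := by
    have : (1 - cU u * ((1 - t * sU u) + (1 - t * sU u)) + (1 - t * sU u) * (1 - t * sU u) : ℝ) =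
        sU u ^ 2 * ((t - u) ^ 2 + 1) := by
      have e : cU u = 1 - u * sU u := by linarith
      rw [e] at hc ⊢
      nlinarith
    unfold D
    exact_mod_cast this
  have hzc : (((1 - t * sU u : ℝ) : ℂ) - (cU u : ℂ)) = ((-(sU u * (t - u)) : ℝ) : ℂ) := by
    have : (1 - t * sU u) - cU u = -(sU u * (t - u)) := by nlinarith
    exact_mod_cast this
  rw [hD, hzc]
  rw [norm_mul, norm_mul, norm_mul, norm_pow, norm_pow, norm_div, norm_div, norm_neg, norm_one,
    one_pow, one_mul, Complex.norm_natCast, norm_pow, norm_pow, Complex.norm_real,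
    Complex.norm_real, Complex.norm_real, Complex.norm_real, Real.norm_eq_abs, Real.norm_eq_abs,
    Real.norm_eq_abs, Real.norm_eq_abs, abs_neg, abs_of_pos (mul_pos hs (sub_pos.mpr hut)),
    abs_of_pos hs, abs_of_pos (by positivity : 0 < sU u ^ 2 * ((t - u) ^ 2 + 1)), sq_abs]
  have e3 : 1 - (1 - t * sU u) ^ 2 = sU u * (t * (2 - t * sU u)) := by ring
  rw [e3]
  unfold g
  have hs' : sU u ≠ 0 := hs.ne'
  have hq : (t - u) ^ 2 + 1 ≠ 0 := by positivity
  rw [div_pow, mul_pow, mul_pow, mul_pow, mul_pow (sU u)]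
  have e4 : 1 + (n + 1) = n + 2 := by ring
  rw [e4]
  rw [mul_pow t]
  field_simp
  ring

lemma g_cont (t : ℝ) (n : ℕ) : Continuous (g t n) := by
  unfold g sU
  refine Continuous.div ?_ (by fun_prop) (fun u => by positivity)
  refine Continuous.mul (by fun_prop) ?_
  refine Continuous.pow ?_ _
  refine continuous_const.sub (continuous_const.mul ?_)
  exact Continuous.div (by fun_prop) (by fun_prop) (fun u => by positivity)

/-- **Theorem.** For every `q ≥ 2`, writing `L = q! · 2^{q+1} q^q/(q+1)^{q+1}`, one has `q! < L`, and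
for every `M < L` there are `f` in the class `S` and a point `z` of the unit disc with
`|S_f^{[1,q]}(z)| (1 - |z|²)^{1+q} > M`. -/
theorem result (q : ℕ) (hq : 2 ≤ q) :
    (q.factorial : ℝ) < q.factorial * (2 ^ (q + 1) * (q : ℝ) ^ q / ((q : ℝ) + 1) ^ (q + 1)) ∧
    ∀ M : ℝ, M < q.factorial * (2 ^ (q + 1) * (q : ℝ) ^ q / ((q : ℝ) + 1) ^ (q + 1)) →
      ∃ (f : ℂ → ℂ) (F : ℂ → ℂ → ℂ), ClassS f ∧ IsBranch f F ∧
        ∃ z ∈ ball (0 : ℂ) 1, M < ‖schwarzian F 1 q z‖ * (1 - ‖z‖ ^ 2) ^ (1 + q) := by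
  constructor
  · have h1 := ineq q hq
    have h2 : 0 < ((q : ℝ) + 1) ^ (q + 1) := by positivity
    have h3 : 1 < 2 ^ (q + 1) * (q : ℝ) ^ q / ((q : ℝ) + 1) ^ (q + 1) := by
      rw [lt_div_iff₀ h2]; linarith
    have h4 : (0 : ℝ) < q.factorial := by positivity
    nlinarith
  · intro M hM
    obtain ⟨n, rfl⟩ : ∃ n, q = n + 1 := ⟨q - 1, by omega⟩
    set t : ℝ := Real.sqrt ((n + 1 : ℕ) : ℝ) with ht
    have ht0 : 0 < t := Real.sqrt_pos.mpr (by positivity)
    have ht2 : t ^ 2 = ((n + 1 : ℕ) : ℝ) := Real.sq_sqrt (by positivity)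
    have hg0 : g t n 0 = 2 ^ (n + 1 + 1) * ((n + 1 : ℕ) : ℝ) ^ (n + 1) /
        (((n + 1 : ℕ) : ℝ) + 1) ^ (n + 1 + 1) := by
      unfold g sU
      rw [← ht2]
      simp only [sub_zero, mul_zero, zero_div]
      congr 1
      rw [← pow_mul]
      ring
    have c1 : ∀ᶠ u in nhds (0 : ℝ), M < (n + 1).factorial * g t n u := by
      have : Filter.Tendsto (fun u => ((n + 1).factorial : ℝ) * g t n u) (nhds 0)
          (nhds ((n + 1).factorial * g t n 0)) :=
        (continuous_const.mul (g_cont t n)).tendsto 0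
      exact this.eventually (lt_mem_nhds (by rw [hg0]; exact hM))
    have c2 : ∀ᶠ u in nhds (0 : ℝ), t * sU u < 1 := by
      have hc : Continuous (fun u => t * sU u) := by
        unfold sU
        exact continuous_const.mul
          (Continuous.div (by fun_prop) (by fun_prop) (fun u => by positivity))
      have : Filter.Tendsto (fun u => t * sU u) (nhds 0) (nhds (t * sU 0)) := hc.tendsto 0
      exact this.eventually (gt_mem_nhds (by simp [sU]))
    have c3 : ∀ᶠ u in nhds (0 : ℝ), u < t := gt_mem_nhds ht0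
    have c4 : ∀ᶠ u in nhdsWithin (0 : ℝ) (Ioi 0), 0 < u := self_mem_nhdsWithin
    obtain ⟨u, hu0, hu1, hu2, hu3⟩ := (c4.and ((c1.and (c2.and c3)).filter_mono
      nhdsWithin_le_nhds)).exists
    have hs : 0 < sU u := by unfold sU; positivity
    refine ⟨f (cU u) (sU u), F (cU u), classS_f (cs_U u) hs, isBranch_F (cs_U u) hs,
      ((1 - t * sU u : ℝ) : ℂ), ?_, ?_⟩
    · rw [mem_ball_zero_iff, Complex.norm_real, Real.norm_eq_abs, abs_lt]
      have := mul_pos ht0 hs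
      constructor <;> linarith
    · rw [value n ht0 hu0 hu3 hu2]
      exact hu1

end Pool.Agent.Results.MP_9404a8_an.OrderOneQ
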